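import Mathlib

namespace Pool.Agent.Results.MP_407208_co.Counter

open Finset

/-- Cells of the `n × n` grid. -/
abbrev Cell (n : ℕ) := Fin n × Fin n

/-- A board: a bijection from the cells to the `n²` labels. -/
abbrev Board (n : ℕ) := Cell n ≃ Fin (n * n)

/-- King's-graph adjacency of cells. -/
def Adj {n : ℕ} (c d : Cell n) : Prop :=
  c ≠ d ∧ c.1.val ≤ d.1.val + 1 ∧ d.1.val ≤ c.1.val + 1 ∧ c.2.val ≤ d.2.val + 1 ∧
    d.2.val ≤ c.2.val + 1

instance {n : ℕ} (c d : Cell n) : Decidable (Adj c d) := by unfold Adj; infer_instance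

/-- The `k`-letter words of a board: `k` distinct labels, consecutive ones in adjacent cells. -/
def W {n : ℕ} (B : Board n) (k : ℕ) : Set (List (Fin (n * n))) :=
  {l | l.length = k ∧ l.Nodup ∧ l.IsChain (fun a b => Adj (B.symm a) (B.symm b))}

/-- Same words of every length at least two. -/
def Equivalent {n : ℕ} (B B' : Board n) : Prop := ∀ k, 2 ≤ k → W B k = W B' k

/-- The board obtained by exchanging the labels in cells `c` and `d`. -/
def swapB {n : ℕ} (B : Board n) (c d : Cell n) : Board n := (Equiv.swap c d).trans B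

def Ext {n : ℕ} (i : Fin n) : Prop := i.val = 0 ∨ i.val + 1 = n

instance {n : ℕ} (i : Fin n) : Decidable (Ext i) := by unfold Ext; infer_instance

/-- `c` is a corner cell and `d` a non-corner boundary cell sharing an edge with `c`. -/
def CornerSide {n : ℕ} (c d : Cell n) : Prop :=
  Ext c.1 ∧ Ext c.2 ∧ ¬ (Ext d.1 ∧ Ext d.2) ∧ (Ext d.1 ∨ Ext d.2) ∧ Adj c d ∧
    (c.1 = d.1 ∨ c.2 = d.2)

instance {n : ℕ} (c d : Cell n) : Decidable (CornerSide c d) := by
  unfold CornerSide; infer_instance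

def enc (N : ℕ) (f : ℕ → ℕ) : ℕ := ∑ m ∈ range N, 2 ^ (80 * m) * f m

lemma enc_lt (N : ℕ) (f : ℕ → ℕ) (hf : ∀ m, f m < 2 ^ 80) : enc N f < 2 ^ (80 * N) := by
  induction N with
  | zero => simp [enc]
  | succ N ih =>
    unfold enc at ih ⊢
    rw [sum_range_succ, mul_add, pow_add, mul_one]
    have := Nat.mul_le_mul_left (2 ^ (80 * N)) (Nat.succ_le_of_lt (hf N))
    rw [Nat.mul_succ] at this
    omega

lemma and_split (t a b c d : ℕ) (hb : b < 2 ^ t) (hd : d < 2 ^ t) :
    (2 ^ t * a + b) &&& (2 ^ t * c + d) = 2 ^ t * (a &&& c) + (b &&& d) := by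
  apply Nat.eq_of_testBit_eq
  intro j
  rw [Nat.testBit_and, Nat.testBit_two_pow_mul_add _ hb, Nat.testBit_two_pow_mul_add _ hd,
    Nat.testBit_two_pow_mul_add _ (lt_of_le_of_lt Nat.and_le_left hb)]
  split_ifs <;> simp

lemma enc_and (N : ℕ) (f g : ℕ → ℕ) (hf : ∀ m, f m < 2 ^ 80) (hg : ∀ m, g m < 2 ^ 80) :
    enc N f &&& enc N g = enc N (fun m => f m &&& g m) := by
  induction N with
  | zero => simp [enc]
  | succ N ih =>
    have e : ∀ h : ℕ → ℕ, enc (N + 1) h = 2 ^ (80 * N) * h N + enc N h := fun h => by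
      unfold enc; rw [sum_range_succ, add_comm]
    rw [e, e, e, and_split _ _ _ _ _ (enc_lt N f hf) (enc_lt N g hg), ih]

def force (x : ℕ) (k : ℕ → ℕ) : ℕ := Nat.casesOn x (k 0) (fun y => k (y + 1))

lemma force_eq (x : ℕ) (k : ℕ → ℕ) : force x k = k x := by cases x <;> rfl

def MM (w : ℕ) : ℕ → ℕ
  | 0 => 2 ^ 80 - 1
  | d + 1 => force (MM w d) (fun x => if d = w then x else (x <<< (80 * 2 ^ d)) + x)

lemma MM_eq (w d : ℕ) :
    MM w d = enc (2 ^ d) (fun m => if m.testBit w then 0 else 2 ^ 80 - 1) := by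
  induction d with
  | zero => simp [MM, enc]
  | succ d ih =>
    rw [MM, force_eq, ih, pow_succ 2 d, mul_two]
    unfold enc
    rw [sum_range_add]
    split_ifs with h
    · subst h
      rw [sum_eq_zero (s := range (2 ^ d)) (f := fun x => 2 ^ (80 * (2 ^ d + x)) *
        if (2 ^ d + x).testBit d then 0 else 2 ^ 80 - 1), add_zero]
      intro x hx
      rw [Nat.testBit_two_pow_add_eq, Nat.testBit_lt_two_pow (mem_range.1 hx)]
      simp
    · rw [add_comm, Nat.shiftLeft_eq, sum_mul]
      congr 1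
      apply sum_congr rfl
      intro x hx
      have hx := mem_range.1 hx
      have : (2 ^ d + x).testBit w = x.testBit w := by
        rcases Nat.lt_or_gt_of_ne h with h | h
        · have h2 : 2 ^ (d + 1) ≤ 2 ^ w := Nat.pow_le_pow_right (by norm_num) h
          rw [pow_succ] at h2
          rw [Nat.testBit_lt_two_pow (by omega), Nat.testBit_lt_two_pow (by omega)]
        · exact Nat.testBit_two_pow_add_gt h x
      beta_reduce
      rw [this, mul_add, pow_add]
      ring

def mask (l : List (Fin 16)) : ℕ := ∑ i ∈ l.toFinset.map Fin.valEmbedding, 2 ^ i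

lemma mask_lt (l : List (Fin 16)) : mask l < 2 ^ 16 :=
  Nat.geomSum_lt le_rfl (fun k hk => by
    obtain ⟨i, _, rfl⟩ := mem_map.1 hk
    exact i.2)

lemma mask_bit (l : List (Fin 16)) (w : Fin 16) : (mask l).testBit w ↔ w ∈ l := by
  rw [← Nat.mem_bitIndices, ← List.mem_toFinset, mask, Finset.toFinset_bitIndices_sum_two_pow]
  simp [Fin.val_inj]

lemma mask_cons (l : List (Fin 16)) (w : Fin 16) (h : w ∉ l) :
    mask (w :: l) = mask l + 2 ^ w.val := by
  rw [mask, List.toFinset_cons, map_insert, sum_insert (by simpa [Fin.val_inj] using h), add_comm]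
  rfl

lemma sum_enc (U : Finset (List (Fin 16))) :
    ∑ l ∈ U, 2 ^ (80 * mask l) = enc (2 ^ 16) (fun m => (U.filter (fun l => mask l = m)).card) := by
  rw [enc, ← sum_fiberwise_of_maps_to (s := U) (t := range (2 ^ 16)) (g := mask)
    (fun l _ => mem_range.2 (mask_lt l))]
  apply sum_congr rfl
  intro m _
  rw [sum_congr rfl (g := fun _ => 2 ^ (80 * m)) (fun l hl => by rw [(mem_filter.1 hl).2]),
    sum_const, smul_eq_mul, mul_comm]

lemma sel (U : Finset (List (Fin 16))) (hU : U.card < 2 ^ 80) (w : Fin 16) :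
    (∑ l ∈ U, 2 ^ (80 * mask l)) &&& MM w 16 =
      ∑ l ∈ U.filter (fun l => w ∉ l), 2 ^ (80 * mask l) := by
  have hb : ∀ m, (U.filter (fun l => mask l = m)).card < 2 ^ 80 :=
    fun m => lt_of_le_of_lt (card_filter_le _ _) hU
  rw [sum_enc, sum_enc, MM_eq, enc_and _ _ _ hb (fun m => by split_ifs <;> norm_num)]
  congr 1
  funext m
  split_ifs with h
  · rw [Nat.and_zero, eq_comm, card_eq_zero, filter_eq_empty_iff]
    intro l hl e
    exact (mem_filter.1 hl).2 ((mask_bit l w).1 (e ▸ h))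
  · rw [Nat.and_two_pow_sub_one_eq_mod, Nat.mod_eq_of_lt (hb m)]
    congr 1
    ext l
    simp only [mem_filter]
    exact ⟨fun h' => ⟨⟨h'.1, fun hw => h (h'.2 ▸ (mask_bit l w).2 hw)⟩, h'.2⟩,
      fun h' => ⟨h'.1.1, h'.2⟩⟩

def A : ℕ → Finset (List (Fin 16))
  | 0 => {[]}
  | k + 1 => image₂ List.cons univ (A k)

lemma mem_A (k : ℕ) (l : List (Fin 16)) : l ∈ A k ↔ l.length = k := by
  induction k generalizing l with
  | zero => simp [A]
  | succ k ih =>
    rcases l with _ | ⟨a, l⟩
    · simp [A]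
    · simp [A, ih]

lemma card_A (k : ℕ) : (A k).card ≤ 16 ^ k := by
  induction k with
  | zero => simp [A]
  | succ k ih =>
    refine (card_image₂_le _ _ _).trans ?_
    rw [card_univ, Fintype.card_fin, pow_succ, mul_comm]
    exact Nat.mul_le_mul_right _ ih

attribute [irreducible] A MM

section dp
variable (r : Fin 16 → Fin 16 → Bool)

def P (k : ℕ) : Finset (List (Fin 16)) :=
  (A k).filter (fun l => l.Nodup ∧ l.IsChain (fun a b => r a b = true))

def E (k : ℕ) (v : Fin 16) : ℕ := ∑ l ∈ (P r k).filter (fun l => l.headD 0 = v), 2 ^ (80 * mask l)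

lemma E_step (k : ℕ) (hk : k + 1 ≤ 16) (w : Fin 16) :
    E r (k + 2) w = ((∑ v, if r w v then E r (k + 1) v else 0) &&& MM w 16) <<< (80 * 2 ^ w.val) := by
  have h1 : (∑ v, if r w v then E r (k + 1) v else 0) =
      ∑ l ∈ (P r (k + 1)).filter (fun l => r w (l.headD 0) = true), 2 ^ (80 * mask l) := by
    rw [← sum_fiberwise (s := (P r (k + 1)).filter (fun l => r w (l.headD 0) = true))
      (g := fun l => l.headD 0)]
    apply sum_congr rfl
    intro v _
    split_ifs with h
    · unfold E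
      congr 1
      ext l
      simp only [mem_filter]
      exact ⟨fun h' => ⟨⟨h'.1, h'.2 ▸ h⟩, h'.2⟩, fun h' => ⟨h'.1.1, h'.2⟩⟩
    · symm
      apply sum_eq_zero
      intro l hl
      simp only [mem_filter] at hl
      exact absurd (hl.2 ▸ hl.1.2) h
  have h2 : ((P r (k + 1)).filter (fun l => r w (l.headD 0) = true)).card < 2 ^ 80 := by
    refine lt_of_le_of_lt ((card_filter_le _ _).trans ((card_filter_le _ _).trans (card_A _))) ?_
    exact lt_of_le_of_lt (Nat.pow_le_pow_right (by norm_num) hk) (by norm_num)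
  rw [h1, sel _ h2, Nat.shiftLeft_eq, sum_mul, E]
  symm
  apply sum_bij' (fun l _ => w :: l) (fun l _ => l.tail)
  · intro l hl
    simp only [P, mem_filter, mem_A] at hl ⊢
    obtain ⟨⟨⟨a1, a2, a3⟩, a4⟩, a5⟩ := hl
    rcases l with _ | ⟨a, l⟩
    · simp at a1
    · exact ⟨⟨by simpa using a1, List.nodup_cons.2 ⟨a5, a2⟩, List.isChain_cons_cons.2 ⟨a4, a3⟩⟩, rfl⟩
  · intro l hl
    simp only [P, mem_filter, mem_A] at hl ⊢
    obtain ⟨⟨a1, a2, a3⟩, a4⟩ := hl
    rcases l with _ | ⟨a, _ | ⟨b, l⟩⟩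
    · simp at a1
    · simp at a1
    · have e : a = w := a4
      subst e
      have h3 := List.isChain_cons_cons.1 a3
      have h4 := List.nodup_cons.1 a2
      exact ⟨⟨⟨by simpa using a1, h4.2, h3.2⟩, h3.1⟩, h4.1⟩
  · intro l _; rfl
  · intro l hl
    simp only [P, mem_filter, mem_A] at hl
    rcases l with _ | ⟨a, l⟩
    · simp at hl
    · have e : a = w := hl.2
      rw [e]; rfl
  · intro l hl
    rw [mask_cons l w (mem_filter.1 hl).2, mul_add, pow_add]

lemma E_one (w : Fin 16) : E r 1 w = 1 <<< (80 * 2 ^ w.val) := by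
  have : (P r 1).filter (fun l => l.headD 0 = w) = {[w]} := by
    ext l
    simp only [P, mem_filter, mem_A, mem_singleton]
    constructor
    · rintro ⟨⟨h1, _⟩, h2⟩
      obtain ⟨a, rfl⟩ := List.length_eq_one_iff.1 h1
      exact congrArg (fun x => [x]) h2
    · rintro rfl; simp
  rw [E, this, sum_singleton, Nat.shiftLeft_eq, one_mul, mask_cons [] w (by simp)]
  simp [mask]

def mapK (g : Fin 16 → ℕ) : List (Fin 16) → (List ℕ → ℕ) → ℕ
  | [], k => k []
  | w :: ws, k => force (g w) (fun x => mapK g ws (fun t => k (x :: t)))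

lemma mapK_eq (g : Fin 16 → ℕ) (ws : List (Fin 16)) (k : List ℕ → ℕ) :
    mapK g ws k = k (ws.map g) := by
  induction ws generalizing k with
  | nil => rfl
  | cons w ws ih => rw [mapK, force_eq, ih]; rfl

def run (Ms : List ℕ) : ℕ → List ℕ → ℕ
  | 0, F => F.sum >>> (80 * 65535)
  | n + 1, F => mapK (fun w => ((((List.finRange 16).filter (r w)).map
      (fun v => F.getD v.val 0)).sum &&& Ms.getD w 0) <<< (80 * 2 ^ w.val))
      (List.finRange 16) (run Ms n)

def ham : ℕ := mapK (fun w : Fin 16 => MM w.val 16) (List.finRange 16) (fun Ms =>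
  mapK (fun w => 1 <<< (80 * 2 ^ w.val)) (List.finRange 16) (run r Ms 15))

lemma getD_map (g : Fin 16 → ℕ) (v : Fin 16) : ((List.finRange 16).map g).getD v 0 = g v := by
  simp only [List.getD_eq_getElem?_getD, List.getElem?_map]
  rw [List.getElem?_eq_getElem (by simp)]
  simp
  rfl

lemma sum_filter_map (p : Fin 16 → Bool) (f : Fin 16 → ℕ) (l : List (Fin 16)) :
    ((l.filter p).map f).sum = (l.map (fun v => if p v then f v else 0)).sum := by
  induction l with
  | nil => rfl
  | cons a l ih =>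
    by_cases h : p a = true
    · simp [List.filter_cons, h, ih]
    · simp [List.filter_cons, h, ih]

lemma run_eq (n k : ℕ) (h : k + 1 + n ≤ 16) :
    run r ((List.finRange 16).map (fun w : Fin 16 => MM w.val 16)) n ((List.finRange 16).map (E r (k + 1))) =
      (∑ v, E r (k + 1 + n) v) >>> (80 * 65535) := by
  induction n generalizing k with
  | zero => rw [run, Fin.sum_univ_def]
  | succ n ih =>
    rw [run, mapK_eq, show k + 1 + (n + 1) = (k + 1) + 1 + n by omega, ← ih (k + 1) (by omega)]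
    refine congrArg (run r _ n) ?_
    apply List.map_congr_left
    intro w _
    rw [E_step r k (by omega), Fin.sum_univ_def, sum_filter_map]
    have e1 := getD_map (fun w : Fin 16 => MM w.val 16) w
    have e2 : (fun v : Fin 16 => if r w v = true then
        ((List.finRange 16).map (E r (k + 1))).getD v.val 0 else 0) =
        fun v => if r w v = true then E r (k + 1) v else 0 := funext fun v => by rw [getD_map]
    rw [e1, e2]

lemma fin_eq (T : ℕ) (hT : ∀ l ∈ P r 16, 80 * mask l = T) :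
    (∑ l ∈ P r 16, 2 ^ (80 * mask l)) >>> T = (P r 16).card := by
  rw [sum_congr rfl (fun l hl => by rw [hT l hl] : ∀ l ∈ P r 16, 2 ^ (80 * mask l) = 2 ^ T),
    sum_const, smul_eq_mul, Nat.shiftRight_eq_div_pow, Nat.mul_div_cancel _ (Nat.two_pow_pos _)]

lemma mask_full (l : List (Fin 16)) (hl : l ∈ P r 16) : mask l = 65535 := by
  simp only [P, mem_filter, mem_A] at hl
  have : l.toFinset = univ := by
    apply eq_univ_of_card
    rw [List.toFinset_card_of_nodup hl.2.1, hl.1]; rfl
  rw [mask, this]; decide +kernel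

lemma ham_eq : ham r = (P r 16).card := by
  have h0 : (fun w : Fin 16 => 1 <<< (80 * 2 ^ w.val)) = E r (0 + 1) :=
    funext fun w => (E_one r w).symm
  have h1 : ∑ v, E r 16 v = ∑ l ∈ P r 16, 2 ^ (80 * mask l) :=
    sum_fiberwise (s := P r 16) (g := fun l => l.headD 0) _
  have h2 := run_eq r 15 0 (by norm_num)
  have h3 := fin_eq r (80 * 65535) (fun l hl => by rw [mask_full r l hl])
  rw [← h1] at h3
  unfold ham
  rw [mapK_eq, mapK_eq, h0]
  exact h2.trans h3

end dp

def rr (B B' : Board 4) (a b : Fin 16) : Bool :=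
  decide (Adj (B.symm a) (B.symm b) ∧ Adj (B'.symm a) (B'.symm b))

lemma common (B B' : Board 4) : (W B 16 ∩ W B' 16).ncard = ham (rr B B') := by
  refine Eq.trans ?_ (ham_eq _).symm
  refine Eq.trans ?_ (Set.ncard_coe_finset _)
  apply congrArg Set.ncard
  ext l
  simp only [W, P, Set.mem_inter_iff, Set.mem_ofPred_eq, coe_filter, mem_A, rr,
    decide_eq_true_eq, List.isChain_iff_getElem]
  constructor
  · rintro ⟨⟨h1, h2, h3⟩, _, _, h4⟩
    exact ⟨h1, h2, fun i hi => ⟨h3 i hi, h4 i hi⟩⟩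
  · rintro ⟨h1, h2, h3⟩
    exact ⟨⟨h1, h2, fun i hi => (h3 i hi).1⟩, h1, h2, fun i hi => (h3 i hi).2⟩

def B0 : Board 4 := finProdFinEquiv

lemma cs0 : ham (rr B0 (swapB B0 (0, 0) (0, 1))) = 109844 := by
  decide +kernel

lemma cs1 : ham (rr B0 (swapB B0 (0, 0) (1, 0))) = 109844 := by
  decide +kernel

lemma cs2 : ham (rr B0 (swapB B0 (0, 3) (0, 2))) = 109844 := by
  decide +kernel

lemma cs3 : ham (rr B0 (swapB B0 (0, 3) (1, 3))) = 109844 := by
  decide +kernel

lemma cs4 : ham (rr B0 (swapB B0 (3, 0) (2, 0))) = 109844 := by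
  decide +kernel

lemma cs5 : ham (rr B0 (swapB B0 (3, 0) (3, 1))) = 109844 := by
  decide +kernel

lemma cs6 : ham (rr B0 (swapB B0 (3, 3) (2, 3))) = 109844 := by
  decide +kernel

lemma cs7 : ham (rr B0 (swapB B0 (3, 3) (3, 2))) = 109844 := by
  decide +kernel

lemma best : ham (rr B0 (swapB B0 (1, 0) (1, 1))) = 158224 := by
  decide +kernel

lemma pairs : ∀ c d : Cell 4, CornerSide c d → (c, d) ∈ ([((0, 0), (0, 1)), ((0, 0), (1, 0)), ((0, 3), (0, 2)), ((0, 3), (1, 3)), ((3, 0), (2, 0)), ((3, 0), (3, 1)), ((3, 3), (2, 3)), ((3, 3), (3, 2))] : List (Cell 4 × Cell 4)) := by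
  decide +kernel

lemma cs (c d : Cell 4) (h : CornerSide c d) : ham (rr B0 (swapB B0 c d)) = 109844 := by
  have := pairs c d h
  simp only [List.mem_cons, Prod.mk.injEq, List.not_mem_nil, or_false] at this
  rcases this with h | h | h | h | h | h | h | h <;> rw [h.1, h.2]
  exacts [cs0, cs1, cs2, cs3, cs4, cs5, cs6, cs7]

theorem result : ∃ B B' : Board 4, ¬ Equivalent B B' ∧
    (W B 16 ∩ W B' 16).ncard = 158224 ∧
    (∀ c d : Cell 4, CornerSide c d → (W B 16 ∩ W (swapB B c d) 16).ncard = 109844) ∧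
    ∀ c d : Cell 4, CornerSide c d →
      (W B 16 ∩ W (swapB B c d) 16).ncard < (W B 16 ∩ W B' 16).ncard := by
  refine ⟨B0, swapB B0 (1, 0) (1, 1), fun h => ?_, by rw [common, best], fun c d h => ?_,
    fun c d h => ?_⟩
  · have h1 : ([5, 2] : List (Fin (4 * 4))) ∈ W B0 2 := by
      refine ⟨rfl, by decide, ?_⟩
      rw [List.isChain_pair]
      decide +kernel
    rw [h 2 le_rfl] at h1
    have h2 := h1.2.2
    rw [List.isChain_pair] at h2
    revert h2
    decide +kernel
  · rw [common, cs c d h]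
  · rw [common, common, cs c d h, best]
    norm_num

end Pool.Agent.Results.MP_407208_co.Counter
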